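import Pool.Agent.H261R3.LH.Stmts

set_option autoImplicit false

/-! Task Path of project LH: uniformly Lipschitz paths to the base point. -/

open scoped NNReal

namespace Pool.Agent.H853R3.LH.Path

open Pool.Agent.H261R3.LH

theorem clip_le (x : ℝ) : clip x ≤ 1 := max_le zero_le_one (min_le_left _ _)

theorem clip_zero : clip 0 = 0 := by unfold clip; norm_num

theorem clip_one : clip 1 = 1 := by unfold clip; norm_num

theorem clip_lip (x y : ℝ) : |clip x - clip y| ≤ |x - y| := by
  unfold clip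
  calc |max 0 (min 1 x) - max 0 (min 1 y)| ≤ |min 1 x - min 1 y| := by
        have := abs_max_sub_max_le_max 0 (min 1 x) 0 (min 1 y)
        simpa using this
    _ ≤ |x - y| := by
        have := abs_min_sub_min_le_max 1 x 1 y
        simpa using this

section
variable {S : Type} [MetricSpace S]

theorem Lip1.mono {C C' : ℝ} {f : ℝ → S} (h : Lip1 C f) (hC : C ≤ C') : Lip1 C' f :=
  fun x y => (h x y).trans (mul_le_mul_of_nonneg_right hC (abs_nonneg _))

/-- local paths -/
theorem loc {m : ℕ} {ι : S → EuclideanSpace ℝ (Fin m)} {r : EuclideanSpace ℝ (Fin m) → S}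
    {K : ℝ≥0} {ρ : ℝ} (hι : LipschitzWith K ι)
    (hr : LipschitzOnWith K r (Metric.thickening ρ (Set.range ι))) (hri : ∀ x, r (ι x) = x)
    (y y' : S) (h : K * dist y y' < ρ) :
    ∃ P : ℝ → S, Lip1 (K * (K * dist y y')) P ∧ P 0 = y ∧ P 1 = y' := by
  have hd : dist (ι y) (ι y') ≤ K * dist y y' := hι.dist_le_mul y y'
  have hmem : ∀ t, AffineMap.lineMap (ι y) (ι y') (clip t) ∈
      Metric.thickening ρ (Set.range ι) := by
    intro t
    rw [Metric.mem_thickening_iff]
    refine ⟨ι y, ⟨y, rfl⟩, ?_⟩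
    rw [dist_lineMap_left, Real.norm_of_nonneg (clip_nonneg t)]
    calc clip t * dist (ι y) (ι y') ≤ 1 * (K * dist y y') :=
          mul_le_mul (clip_le t) hd dist_nonneg zero_le_one
      _ < ρ := by rw [one_mul]; exact h
  refine ⟨fun t => r (AffineMap.lineMap (ι y) (ι y') (clip t)), ?_, ?_, ?_⟩
  · intro s t
    calc dist (r (AffineMap.lineMap (ι y) (ι y') (clip s)))
          (r (AffineMap.lineMap (ι y) (ι y') (clip t)))
        ≤ K * dist (AffineMap.lineMap (ι y) (ι y') (clip s) : EuclideanSpace ℝ (Fin m))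
            (AffineMap.lineMap (ι y) (ι y') (clip t)) := hr.dist_le_mul _ (hmem s) _ (hmem t)
      _ = K * (|clip s - clip t| * dist (ι y) (ι y')) := by
          rw [dist_lineMap_lineMap, Real.dist_eq]
      _ ≤ K * (|s - t| * (K * dist y y')) := by
          refine mul_le_mul_of_nonneg_left ?_ K.coe_nonneg
          exact mul_le_mul (clip_lip s t) hd dist_nonneg (abs_nonneg _)
      _ = K * (K * dist y y') * |s - t| := by ring
  · simp only [clip_zero, AffineMap.lineMap_apply_zero, hri]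
  · simp only [clip_one, AffineMap.lineMap_apply_one, hri]

/-- joined by a Lipschitz path -/
def J (C : ℝ) (a b : S) : Prop := ∃ P : ℝ → S, Lip1 C P ∧ P 0 = a ∧ P 1 = b

theorem J.symm {C : ℝ} {a b : S} (h : J C a b) : J C b a := by
  obtain ⟨P, hP, h0, h1⟩ := h
  refine ⟨fun t => P (1 - t), ?_, by simpa using h1, by simpa using h0⟩
  intro x y
  have := hP (1 - x) (1 - y)
  have e : (1 - x) - (1 - y) = -(x - y) := by ring
  rwa [e, abs_neg] at this

theorem J.mono {C C' : ℝ} {a b : S} (h : J C a b) (hC : C ≤ C') : J C' a b := by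
  obtain ⟨P, hP, h0, h1⟩ := h
  exact ⟨P, Lip1.mono hP hC, h0, h1⟩

theorem J.trans {C C' : ℝ} (hC : 0 ≤ C) (hC' : 0 ≤ C') {a b c : S} (h : J C a b)
    (h' : J C' b c) : J (2 * C + 2 * C') a c := by
  obtain ⟨P, hP, h0, h1⟩ := h
  obtain ⟨P', hP', h0', h1'⟩ := h'
  set Q : ℝ → S := fun t => if t ≤ 1 / 2 then P (2 * t) else P' (2 * t - 1) with hQ
  have hmix : ∀ x y : ℝ, x ≤ 1 / 2 → 1 / 2 < y →
      dist (P (2 * x)) (P' (2 * y - 1)) ≤ (2 * C + 2 * C') * (y - x) := by
    intro x y hx hy
    have e1 := hP (2 * x) 1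
    have e2 := hP' 0 (2 * y - 1)
    rw [h1] at e1
    rw [h0'] at e2
    have a1 : |2 * x - 1| = 1 - 2 * x := by rw [abs_of_nonpos (by linarith)]; ring
    have a2 : |0 - (2 * y - 1)| = 2 * y - 1 := by rw [abs_of_nonpos (by linarith)]; ring
    rw [a1] at e1
    rw [a2] at e2
    calc dist (P (2 * x)) (P' (2 * y - 1)) ≤ dist (P (2 * x)) b + dist b (P' (2 * y - 1)) :=
          dist_triangle _ _ _
      _ ≤ C * (1 - 2 * x) + C' * (2 * y - 1) := add_le_add e1 e2
      _ ≤ C * (2 * (y - x)) + C' * (2 * (y - x)) := by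
          refine add_le_add (mul_le_mul_of_nonneg_left (by linarith) hC)
            (mul_le_mul_of_nonneg_left (by linarith) hC')
      _ = (2 * C + 2 * C') * (y - x) := by ring
  refine ⟨Q, ?_, ?_, ?_⟩
  · intro x y
    simp only [hQ]
    by_cases hx : x ≤ 1 / 2
    · by_cases hy : y ≤ 1 / 2
      · rw [if_pos hx, if_pos hy]
        refine (hP _ _).trans ?_
        have e : 2 * x - 2 * y = 2 * (x - y) := by ring
        rw [e, abs_mul, abs_two]
        have := abs_nonneg (x - y)
        nlinarith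
      · push Not at hy
        rw [if_pos hx, if_neg (not_le.2 hy)]
        refine (hmix x y hx hy).trans ?_
        rw [abs_sub_comm, abs_of_pos (by linarith)]
    · push Not at hx
      by_cases hy : y ≤ 1 / 2
      · rw [if_neg (not_le.2 hx), if_pos hy, dist_comm]
        refine (hmix y x hy hx).trans ?_
        rw [abs_of_pos (by linarith)]
      · push Not at hy
        rw [if_neg (not_le.2 hx), if_neg (not_le.2 hy)]
        refine (hP' _ _).trans ?_
        have e : 2 * x - 1 - (2 * y - 1) = 2 * (x - y) := by ring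
        rw [e, abs_mul, abs_two]
        have := abs_nonneg (x - y)
        nlinarith
  · simp only [hQ]
    rw [if_pos (by norm_num), mul_zero, h0]
  · simp only [hQ]
    rw [if_neg (by norm_num)]
    have e : (2 : ℝ) * 1 - 1 = 1 := by norm_num
    rw [e, h1']

end

theorem taskPath : TaskPath := by
  intro S _ _ _ hS p
  obtain ⟨m, ι, r, K, ρ, hρ, hι, hr, hri⟩ := hS
  set δ : ℝ := ρ / (K + 1) with hδ
  have hK : (0 : ℝ) ≤ K := K.coe_nonneg
  have hδ0 : 0 < δ := by positivity
  have hKδ : K * δ < ρ := by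
    rw [hδ, mul_div_assoc', div_lt_iff₀ (by positivity)]
    nlinarith
  have hloc : ∀ y y' : S, dist y y' < δ → J (K * (K * δ)) y y' := by
    intro y y' h
    have h1 : K * dist y y' ≤ K * δ := mul_le_mul_of_nonneg_left h.le hK
    obtain ⟨P, hP, h0, h2⟩ := loc hι hr hri y y' (h1.trans_lt hKδ)
    exact ⟨P, Lip1.mono hP (mul_le_mul_of_nonneg_left h1 hK), h0, h2⟩
  have hC0 : (0 : ℝ) ≤ K * (K * δ) := by positivity
  -- every point is joined to `p`
  have hall : ∀ y : S, ∃ C : ℝ, 0 ≤ C ∧ J C y p := by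
    have hstep : ∀ y y' : S, dist y y' < δ → (∃ C : ℝ, 0 ≤ C ∧ J C y p) →
        ∃ C : ℝ, 0 ≤ C ∧ J C y' p := by
      rintro y y' h ⟨C, hC, hJ⟩
      refine ⟨2 * (K * (K * δ)) + 2 * C, by positivity, ?_⟩
      exact J.trans hC0 hC (hloc y y' h).symm hJ
    have hclopen : IsClopen {y : S | ∃ C : ℝ, 0 ≤ C ∧ J C y p} := by
      constructor
      · rw [← isOpen_compl_iff, Metric.isOpen_iff]
        intro y hy
        refine ⟨δ, hδ0, fun y' hy' hcon => hy ?_⟩
        exact hstep y' y (by rwa [Metric.mem_ball] at hy') hcon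
      · rw [Metric.isOpen_iff]
        intro y hy
        refine ⟨δ, hδ0, fun y' hy' => ?_⟩
        exact hstep y y' (by rw [Metric.mem_ball, dist_comm] at hy'; exact hy') hy
    have hne : ({y : S | ∃ C : ℝ, 0 ≤ C ∧ J C y p}).Nonempty := by
      refine ⟨p, 0, le_rfl, fun _ => p, ?_, rfl, rfl⟩
      intro x y
      simp
    have huniv := hclopen.eq_univ hne
    intro y
    have : y ∈ {y : S | ∃ C : ℝ, 0 ≤ C ∧ J C y p} := by rw [huniv]; trivial
    exact this
  -- uniform constants
  obtain ⟨t, -, htf, htc⟩ := Metric.finite_approx_of_totallyBounded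
    (isCompact_univ (X := S)).totallyBounded δ hδ0
  choose C hC hJ using hall
  obtain ⟨M, hM⟩ := (htf.image C).bddAbove
  have hM' : ∀ y ∈ t, C y ≤ max M 0 := fun y hy =>
    (hM ⟨y, hy, rfl⟩).trans (le_max_left _ _)
  refine ⟨2 * (K * (K * δ)) + 2 * max M 0, by positivity, ?_⟩
  intro y
  have hy := htc (Set.mem_univ y)
  simp only [Set.mem_iUnion, Metric.mem_ball] at hy
  obtain ⟨z, hz, hyz⟩ := hy
  exact J.trans hC0 (le_max_right _ _) (hloc y z hyz) ((hJ z).mono (hM' z hz))

end Pool.Agent.H853R3.LH.Path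

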